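import Mathlib.GroupTheory.Perm.Fin
import Mathlib.GroupTheory.Perm.Cycle.Type
import Mathlib.Data.ZMod.Basic
import Mathlib.Algebra.BigOperators.Intervals
import Mathlib.Algebra.Order.BigOperators.Group.Finset
import Mathlib.Order.Lattice.Nat
import Mathlib.Order.ConditionallyCompleteLattice.Finset
import Mathlib.Tactic

/-!
# Cyclic sorting by arbitrary transpositions: the even case and the multiples of three

For every `n ≥ 4` divisible by `2` or by `3` we show `t n ≤ n - 3`, where `t n` is the maximal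
sorting time of a cyclic permutation of order `n` by arbitrary transpositions.
-/

namespace Pool.Agent.Results.MP_02ec02_co.EvenOrTriple

open Equiv Equiv.Perm

/-- `cyc σ`: the number of cycles of `σ`, fixed points included. -/
def cyc {α : Type} [Fintype α] [DecidableEq α] (σ : Perm α) : ℕ :=
  Multiset.card σ.cycleType + (Finset.univ.filter fun i => σ i = i).card

/-- `sortingTime π`: the minimum of `n - cyc σ` over the elements `σ` of the left coset `π Cₙ`,
where `Cₙ` is generated by the full rotation `finRotate n`. -/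
noncomputable def sortingTime {n : ℕ} (π : Perm (Fin n)) : ℕ :=
  sInf {m | ∃ k : ℕ, m = n - cyc (π * finRotate n ^ k)}

/-- `t n`: the maximum of the sorting times over all permutations of `n` points. -/
noncomputable def t (n : ℕ) : ℕ :=
  sSup (Set.range fun π : Perm (Fin n) => sortingTime π)

section aux

variable {α : Type} [Fintype α] [DecidableEq α]

/-- number of fixed points -/
private def fx (σ : Perm α) : ℕ := (Finset.univ.filter fun i => σ i = i).card

private lemma sum_add_fx (σ : Perm α) : σ.cycleType.sum + fx σ = Fintype.card α := by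
  rw [sum_cycleType, fx]
  have : (Finset.univ.filter fun i => σ i = i) = σ.supportᶜ := by
    ext i; simp
  rw [this, Finset.card_add_card_compl]

private lemma sign_cyc (σ : Perm α) : sign σ = (-1) ^ (Fintype.card α + cyc σ) := by
  rw [sign_of_cycleType, ← sum_add_fx σ, cyc, ← fx]
  have : σ.cycleType.sum + fx σ + (Multiset.card σ.cycleType + fx σ)
      = (σ.cycleType.sum + Multiset.card σ.cycleType) + 2 * fx σ := by ring
  rw [this, pow_add _ _ (2 * fx σ), pow_mul]
  simp

private lemma cyc_eq (σ : Perm α) : cyc σ = Multiset.card σ.cycleType + fx σ := rfl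

private lemma sum_zero_of_card_zero (σ : Perm α) (h : Multiset.card σ.cycleType = 0) :
    fx σ = Fintype.card α := by
  have := sum_add_fx σ
  rw [Multiset.card_eq_zero] at h
  rw [h] at this
  simpa using this

private lemma fx_le_one (σ : Perm α) (hn : 3 ≤ Fintype.card α) (h : cyc σ ≤ 2) : fx σ ≤ 1 := by
  by_contra hc
  rw [cyc_eq] at h
  have h0 : Multiset.card σ.cycleType = 0 := by omega
  have := sum_zero_of_card_zero σ h0
  omega

private lemma fx_zero (σ : Perm α) (hn : 2 ≤ Fintype.card α) (h : cyc σ = 1) : fx σ = 0 := by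
  by_contra hc
  rw [cyc_eq] at h
  have h0 : Multiset.card σ.cycleType = 0 := by omega
  have := sum_zero_of_card_zero σ h0
  omega

private lemma cyc_pos (σ : Perm α) (hn : 1 ≤ Fintype.card α) : 1 ≤ cyc σ := by
  by_contra hc
  rw [cyc_eq] at hc
  have h0 : Multiset.card σ.cycleType = 0 := by omega
  have := sum_zero_of_card_zero σ h0
  omega

private lemma no_two_cycle (σ : Perm α) (hn : 4 ≤ Fintype.card α) (h : cyc σ ≤ 2)
    (hf : 1 ≤ fx σ) {x y : α} (hxy : x ≠ y) (h1 : σ x = y) (h2 : σ y = x) : False := by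
  have hf1 := fx_le_one σ (by omega) h
  rw [cyc_eq] at h
  have hcard : Multiset.card σ.cycleType ≤ 1 := by omega
  have hne : Multiset.card σ.cycleType ≠ 0 := by
    intro h0
    have := sum_zero_of_card_zero σ h0
    omega
  have hcyc : σ.IsCycle := by
    rw [← card_cycleType_eq_one]; omega
  have hsq : σ ^ 2 = 1 := by
    rw [hcyc.pow_eq_one_iff]
    refine ⟨x, ?_, ?_⟩
    · rw [h1]; exact hxy.symm
    · rw [pow_two, Perm.mul_apply, h1, h2]
  have hord : orderOf σ ∣ 2 := orderOf_dvd_of_pow_eq_one hsq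
  have hle := Nat.le_of_dvd (by norm_num) hord
  rw [hcyc.orderOf] at hle
  have hs := sum_add_fx σ
  rw [sum_cycleType] at hs
  omega

end aux

section main

variable {n : ℕ} [NeZero n]

/-- the rotated permutation `i ↦ π (i + k)` -/
private def rot (π : Perm (ZMod n)) (k : ZMod n) : Perm (ZMod n) := π * Equiv.addRight k

omit [NeZero n] in
private lemma rot_apply (π : Perm (ZMod n)) (k i : ZMod n) : rot π k i = π (i + k) := rfl

private lemma sum_fx (π : Perm (ZMod n)) : ∑ k : ZMod n, fx (rot π k) = n := by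
  have h1 : ∀ k : ZMod n, fx (rot π k) = ∑ i : ZMod n, if π (i + k) = i then 1 else 0 := by
    intro k
    rw [fx, Finset.card_filter]
    rfl
  simp_rw [h1]
  rw [Finset.sum_comm]
  have h2 : ∀ i : ZMod n, (∑ k : ZMod n, if π (i + k) = i then 1 else 0) = 1 := by
    intro i
    rw [Finset.sum_eq_single (π.symm i - i)]
    · simp
    · intro b _ hb
      rw [if_neg]
      intro hπ
      apply hb
      rw [← hπ]
      simp
      rw [hπ]; ring
    · simp
  simp_rw [h2]
  simp

private lemma addRight_one_eq (m : ℕ) :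
    (Equiv.addRight (1 : ZMod (m + 1))) = finRotate (m + 1) := by
  refine Equiv.ext fun i => ?_
  exact (finRotate_apply (n := m + 1) i).symm

private lemma sign_addRight_one : sign (Equiv.addRight (1 : ZMod n)) = (-1) ^ (n - 1) := by
  obtain ⟨m, rfl⟩ : ∃ m, n = m + 1 := ⟨n - 1, by have := NeZero.ne n; omega⟩
  have h2 := sign_finRotate (m + 1)
  rw [← h2]
  exact congrArg _ (addRight_one_eq m)

private lemma rot_succ (π : Perm (ZMod n)) (k : ZMod n) :
    rot π (k + 1) = rot π k * Equiv.addRight 1 := by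
  ext i
  simp only [rot, Perm.mul_apply, Equiv.coe_addRight]
  rw [show i + (k + 1) = i + 1 + k by ring]

private lemma even_case (hn : 4 ≤ n) (h2 : 2 ∣ n) (π : Perm (ZMod n))
    (h : ∀ k : ZMod n, cyc (rot π k) ≤ 2) : False := by
  have hcard : Fintype.card (ZMod n) = n := ZMod.card n
  have key : ∀ k : ZMod n, fx (rot π k) + fx (rot π (k + 1)) ≤ 1 := by
    intro k
    have hs : sign (rot π (k + 1)) = - sign (rot π k) := by
      rw [rot_succ, Perm.sign_mul, sign_addRight_one]
      have : Odd (n - 1) := by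
        obtain ⟨m, hm⟩ := h2
        exact ⟨m - 1, by omega⟩
      rw [this.neg_one_pow]; simp
    rw [sign_cyc, sign_cyc, hcard] at hs
    have hpar : cyc (rot π (k + 1)) % 2 ≠ cyc (rot π k) % 2 := by
      intro he
      have : (-1 : ℤˣ) ^ (n + cyc (rot π (k + 1))) = (-1) ^ (n + cyc (rot π k)) := by
        rw [pow_add, pow_add]
        congr 1
        rw [← Nat.mod_add_div (cyc (rot π (k + 1))) 2, ← Nat.mod_add_div (cyc (rot π k)) 2, he,
          pow_add, pow_add, pow_mul, pow_mul]
        simp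
      rw [this] at hs
      have h3 : ((-1 : ℤˣ) ^ (n + cyc (rot π k)) : ℤˣ) ≠ - (-1) ^ (n + cyc (rot π k)) := by
        rcases neg_one_pow_eq_or ℤˣ (n + cyc (rot π k)) with h | h <;> rw [h] <;> decide
      exact h3 hs
    have a1 := h k
    have a2 := h (k + 1)
    have b1 := cyc_pos (rot π k) (by omega)
    have b2 := cyc_pos (rot π (k + 1)) (by omega)
    have c1 := fx_le_one (rot π k) (by omega) a1
    have c2 := fx_le_one (rot π (k + 1)) (by omega) a2
    rcases (show cyc (rot π k) = 1 ∨ cyc (rot π (k + 1)) = 1 by omega) with hh | hh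
    · have := fx_zero (rot π k) (by omega) hh
      omega
    · have := fx_zero (rot π (k + 1)) (by omega) hh
      omega
  have hsum : ∑ k : ZMod n, (fx (rot π k) + fx (rot π (k + 1))) ≤ ∑ _k : ZMod n, 1 :=
    Finset.sum_le_sum fun k _ => key k
  rw [Finset.sum_add_distrib] at hsum
  have hshift : ∑ k : ZMod n, fx (rot π (k + 1)) = ∑ k : ZMod n, fx (rot π k) :=
    Equiv.sum_comp (Equiv.addRight (1 : ZMod n)) (fun k => fx (rot π k))
  rw [hshift, sum_fx] at hsum
  simp at hsum
  omega

private lemma six_sum (m : ℕ) :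
    6 * ∑ i ∈ Finset.range (m + 1), i ^ 2 = m * (m + 1) * (2 * m + 1) := by
  induction m with
  | zero => simp
  | succ m ih => rw [Finset.sum_range_succ, mul_add, ih]; ring

private lemma sum_sq :
    (∑ j : ZMod n, j ^ 2) = ((∑ i ∈ Finset.range n, i ^ 2 : ℕ) : ZMod n) := by
  rw [Nat.cast_sum]
  symm
  apply Finset.sum_bij' (fun (i : ℕ) _ => (i : ZMod n)) (fun (j : ZMod n) _ => j.val)
  · intros; simp
  · intro j _; simpa using ZMod.val_lt j
  · intro i hi; exact ZMod.val_cast_of_lt (by simpa using hi)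
  · intro j _; simp
  · intro i _; simp

private lemma triple_case (hn : 4 ≤ n) (h2 : ¬ 2 ∣ n) (h3 : 3 ∣ n) (π : Perm (ZMod n))
    (h : ∀ k : ZMod n, cyc (rot π k) ≤ 2) : False := by
  have hcard : Fintype.card (ZMod n) = n := ZMod.card n
  have hfx1 : ∀ k, fx (rot π k) ≤ 1 := fun k => fx_le_one _ (by omega) (h k)
  -- every rotation has exactly one fixed point
  have hfx : ∀ k, fx (rot π k) = 1 := by
    have hs := sum_fx π
    by_contra hne
    push Not at hne
    obtain ⟨k, hk⟩ := hne
    have hlt : ∑ k : ZMod n, fx (rot π k) < ∑ _k : ZMod n, 1 :=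
      Finset.sum_lt_sum (fun k _ => hfx1 k) ⟨k, Finset.mem_univ k, lt_of_le_of_ne (hfx1 k) hk⟩
    simp at hlt
    omega
  have inj1 : Function.Injective fun j : ZMod n => π j - j := by
    intro a b hab
    simp only at hab
    have hc := hfx (a - π a)
    rw [fx, Finset.card_eq_one] at hc
    obtain ⟨z, hz⟩ := hc
    have ha : π a ∈ ({z} : Finset (ZMod n)) := by
      rw [← hz, Finset.mem_filter]
      refine ⟨Finset.mem_univ _, ?_⟩
      rw [rot_apply]; congr 1; ring
    have hb : π b ∈ ({z} : Finset (ZMod n)) := by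
      rw [← hz, Finset.mem_filter]
      refine ⟨Finset.mem_univ _, ?_⟩
      have : π b + (a - π a) = b := by linear_combination hab * (-1)
      rw [rot_apply, this]
    rw [Finset.mem_singleton] at ha hb
    exact π.injective (ha.trans hb.symm)
  have inj2 : Function.Injective fun j : ZMod n => π j + j := by
    intro a b hab
    simp only at hab
    by_contra hne
    let k := b - π a
    have hx : rot π k (a - k) = b - k := by
      rw [rot_apply]; simp [k]
    have hy : rot π k (b - k) = a - k := by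
      rw [rot_apply]; simp only [sub_add_cancel, k]
      linear_combination hab * (-1)
    refine no_two_cycle (rot π k) (by omega) (h k) (by rw [hfx k]) (x := a - k) (y := b - k)
      ?_ hx hy
    intro he
    apply hne
    exact sub_left_injective he
  have bij1 := Finite.injective_iff_bijective.mp inj1
  have bij2 := Finite.injective_iff_bijective.mp inj2
  have e1 : ∑ j : ZMod n, (π j - j) ^ 2 = ∑ j : ZMod n, j ^ 2 :=
    Equiv.sum_comp (Equiv.ofBijective _ bij1) (fun j => j ^ 2)
  have e2 : ∑ j : ZMod n, (π j + j) ^ 2 = ∑ j : ZMod n, j ^ 2 :=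
    Equiv.sum_comp (Equiv.ofBijective _ bij2) (fun j => j ^ 2)
  have e3 : ∑ j : ZMod n, (π j) ^ 2 = ∑ j : ZMod n, j ^ 2 :=
    Equiv.sum_comp π (fun j => j ^ 2)
  have e4 : ∑ j : ZMod n, (π j - j) ^ 2 + ∑ j : ZMod n, (π j + j) ^ 2
      = 2 * ∑ j : ZMod n, (π j) ^ 2 + 2 * ∑ j : ZMod n, j ^ 2 := by
    rw [Finset.mul_sum, Finset.mul_sum, ← Finset.sum_add_distrib, ← Finset.sum_add_distrib]
    exact Finset.sum_congr rfl fun j _ => by ring
  rw [e1, e2, e3] at e4
  have e5 : 2 * ∑ j : ZMod n, j ^ 2 = 0 := by linear_combination -e4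
  rw [sum_sq] at e5
  have e6 : ((2 * ∑ i ∈ Finset.range n, i ^ 2 : ℕ) : ZMod n) = 0 := by
    rw [Nat.cast_mul]; exact_mod_cast e5
  rw [ZMod.natCast_eq_zero_iff] at e6
  obtain ⟨u, hu⟩ := e6
  obtain ⟨m, rfl⟩ : ∃ m, n = m + 1 := ⟨n - 1, by omega⟩
  have h6 := six_sum m
  have h7 : (m + 1) * (3 * u) = (m + 1) * (m * (2 * m + 1)) := by
    calc (m + 1) * (3 * u) = 3 * ((m + 1) * u) := by ring
      _ = 3 * (2 * ∑ i ∈ Finset.range (m + 1), i ^ 2) := by rw [hu]
      _ = 6 * ∑ i ∈ Finset.range (m + 1), i ^ 2 := by ring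
      _ = m * (m + 1) * (2 * m + 1) := h6
      _ = (m + 1) * (m * (2 * m + 1)) := by ring
  have h8 : 3 * u = m * (2 * m + 1) := Nat.eq_of_mul_eq_mul_left (by omega) h7
  obtain ⟨w, hw⟩ := h3
  have h9 : m = 3 * (w - 1) + 2 := by omega
  rw [h9] at h8
  have h10 : (3 * (w - 1) + 2) * (2 * (3 * (w - 1) + 2) + 1)
      = 3 * ((w - 1) * (6 * (w - 1) + 9) + 3) + 1 := by ring
  omega

private lemma exists_three (hn : 4 ≤ n) (h : 2 ∣ n ∨ 3 ∣ n) (π : Perm (ZMod n)) :
    ∃ k : ZMod n, 3 ≤ cyc (rot π k) := by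
  by_contra hc
  push Not at hc
  have hc' : ∀ k, cyc (rot π k) ≤ 2 := fun k => by have := hc k; omega
  by_cases h2 : 2 ∣ n
  · exact even_case hn h2 π hc'
  · exact triple_case hn h2 (h.resolve_left h2) π hc'

end main

private lemma addRight_pow {n : ℕ} (j : ℕ) :
    (Equiv.addRight (1 : ZMod n)) ^ j = Equiv.addRight ((j : ℕ) : ZMod n) := by
  induction j with
  | zero => ext i; simp
  | succ j ih =>
    rw [pow_succ', ih]
    ext i
    simp [add_assoc]

private lemma exists_three_fin (m : ℕ) (hn : 4 ≤ m + 1) (h : 2 ∣ m + 1 ∨ 3 ∣ m + 1)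
    (π : Perm (Fin (m + 1))) : ∃ k : ℕ, 3 ≤ cyc (π * finRotate (m + 1) ^ k) := by
  have key : ∀ π : Perm (ZMod (m + 1)),
      ∃ k : ℕ, 3 ≤ cyc (π * (Equiv.addRight (1 : ZMod (m + 1))) ^ k) := by
    intro π
    obtain ⟨k, hk⟩ := exists_three (n := m + 1) hn h π
    refine ⟨k.val, ?_⟩
    rw [addRight_pow, ZMod.natCast_zmod_val]
    exact hk
  have key2 : ∀ (c : Perm (ZMod (m + 1))), Equiv.addRight (1 : ZMod (m + 1)) = c →
      ∀ π : Perm (ZMod (m + 1)), ∃ k : ℕ, 3 ≤ cyc (π * c ^ k) := by
    intro c hc π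
    rw [← hc]
    exact key π
  exact key2 (finRotate (m + 1)) (addRight_one_eq m) π

/-- For every `n ≥ 4` divisible by `2` or by `3`, the maximal cyclic sorting time by arbitrary
transpositions is at most `n - 3`. -/
theorem result (n : ℕ) (hn : 4 ≤ n) (h : 2 ∣ n ∨ 3 ∣ n) : t n ≤ n - 3 := by
  obtain ⟨m, rfl⟩ : ∃ m, n = m + 1 := ⟨n - 1, by omega⟩
  unfold t
  apply csSup_le (Set.range_nonempty _)
  rintro _ ⟨π, rfl⟩
  obtain ⟨k, hk⟩ := exists_three_fin m hn h π
  have h1 : sortingTime π ≤ m + 1 - cyc (π * finRotate (m + 1) ^ k) := Nat.sInf_le ⟨k, rfl⟩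
  exact h1.trans (by omega)

end Pool.Agent.Results.MP_02ec02_co.EvenOrTriple
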